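import Mathlib

set_option autoImplicit false

open Set Filter Topology

namespace Pool.Agent.Results.MP_577fd0_gt.SeparablePart

/-- `C_p(X)`: continuous real functions with the topology of pointwise convergence. -/
abbrev Cp (X : Type*) [TopologicalSpace X] : Type _ := {f : X → ℝ // Continuous f}

variable {X : Type*} [TopologicalSpace X]

lemma tendsto_cp {ι : Type*} {l : Filter ι} (u : ι → Cp X) (f : Cp X) :
    Tendsto u l (𝓝 f) ↔ ∀ x, Tendsto (fun i => (u i).1 x) l (𝓝 (f.1 x)) := by
  rw [tendsto_subtype_rng, tendsto_pi_nhds]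

/-- `f` plus the difference `h - f` cut off at `-1` and `1` -/
noncomputable def cl (f h : Cp X) : Cp X :=
  ⟨fun x => f.1 x + max (-1) (min 1 (h.1 x - f.1 x)),
    f.2.add (continuous_const.max (continuous_const.min (h.2.sub f.2)))⟩

lemma cl_self (f : Cp X) : cl f f = f := by
  apply Subtype.ext
  funext x
  simp [cl]

lemma eval_cont (x : X) : Continuous (fun h : Cp X => h.1 x) :=
  (continuous_apply x).comp continuous_subtype_val

lemma cl_cont (f : Cp X) : Continuous (cl f) := by
  refine Continuous.subtype_mk (continuous_pi fun x => ?_) _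
  exact continuous_const.add (continuous_const.max (continuous_const.min
    ((eval_cont x).sub continuous_const)))

theorem exists_discrete [T2Space X] [CompletelyRegularSpace X] [Infinite X]
    (E : Set (Cp X)) (hE : E.Countable) (hEne : E.Nonempty) (f : Cp X) :
    ∃ D : Set (Cp X), D.Countable ∧ DiscreteTopology D ∧
      ∀ a ∈ closure E, cl f a ∈ closure D := by
  obtain ⟨e, he⟩ := hE.exists_eq_range hEne
  obtain ⟨U, hUinf, hUo, hUd⟩ := exists_seq_infinite_isOpen_pairwise_disjoint X
  have hpt : ∀ n, ∃ x, x ∈ U n := fun n => (hUinf n).nonempty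
  choose pt hpt using hpt
  have hg : ∀ n, ∃ g : X → ℝ, Continuous g ∧ g (pt n) = 1 ∧ (∀ x, x ∉ U n → g x = 0) := by
    intro n
    obtain ⟨φ, hφ, h0, h1⟩ := CompletelyRegularSpace.completely_regular (pt n) (U n)ᶜ
      (hUo n).isClosed_compl (fun hx => hx (hpt n))
    refine ⟨fun x => 1 - (φ x : ℝ), continuous_const.sub (continuous_subtype_val.comp hφ), ?_, ?_⟩
    · simp [h0]
    · intro x hx
      have := h1 hx
      simp [this]
  choose g hgc hg1 hg0 using hg
  let d : ℕ × ℕ → Cp X := fun q =>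
    ⟨fun x => (cl f (e q.1)).1 x + 3 * g (Nat.pair q.1 q.2) x,
      (cl f (e q.1)).2.add (continuous_const.mul (hgc _))⟩
  have hcl1 : ∀ (a : Cp X) (x : X), (cl f a).1 x ≤ f.1 x + 1 := by
    intro a x
    simp only [cl]
    have : max (-1) (min 1 (a.1 x - f.1 x)) ≤ 1 := max_le (by norm_num) (min_le_left _ _)
    linarith
  have hcl2 : ∀ (a : Cp X) (x : X), f.1 x - 1 ≤ (cl f a).1 x := by
    intro a x
    simp only [cl]
    have : -1 ≤ max (-1) (min 1 (a.1 x - f.1 x)) := le_max_left _ _
    linarith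
  have hmem : ∀ m n, m ≠ n → pt n ∉ U m := by
    intro m n hmn hx
    exact Set.disjoint_left.1 (hUd hmn) hx (hpt n)
  -- D is discrete
  have hD : DiscreteTopology (range d) := by
    rw [discreteTopology_subtype_iff']
    rintro _ ⟨q, rfl⟩
    refine ⟨{k : Cp X | f.1 (pt (Nat.pair q.1 q.2)) + 3 / 2 < k.1 (pt (Nat.pair q.1 q.2))},
      isOpen_lt continuous_const (eval_cont _), ?_⟩
    apply Set.Subset.antisymm
    · rintro _ ⟨hk, ⟨r, rfl⟩⟩
      by_cases hqr : r = q
      · rw [hqr]; rfl
      · exfalso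
        have hne : Nat.pair r.1 r.2 ≠ Nat.pair q.1 q.2 := by
          intro hp
          rw [Nat.pair_eq_pair] at hp
          exact hqr (Prod.ext hp.1 hp.2)
        have h0 := hg0 (Nat.pair r.1 r.2) _ (hmem _ _ hne)
        have h1 := hcl1 (e r.1) (pt (Nat.pair q.1 q.2))
        have hk' : f.1 (pt (Nat.pair q.1 q.2)) + 3 / 2 <
          (cl f (e r.1)).1 (pt (Nat.pair q.1 q.2)) +
            3 * g (Nat.pair r.1 r.2) (pt (Nat.pair q.1 q.2)) := hk
        rw [h0] at hk'
        linarith
    · rintro _ rfl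
      refine ⟨?_, ⟨q, rfl⟩⟩
      change f.1 (pt (Nat.pair q.1 q.2)) + 3 / 2 <
          (cl f (e q.1)).1 (pt (Nat.pair q.1 q.2)) +
            3 * g (Nat.pair q.1 q.2) (pt (Nat.pair q.1 q.2))
      have h1 := hcl2 (e q.1) (pt (Nat.pair q.1 q.2))
      rw [hg1]
      linarith
  -- the cut-offs of members of E are limits of members of D
  have hlim : ∀ n, cl f (e n) ∈ closure (range d) := by
    intro n
    refine mem_closure_of_tendsto (f := fun k : ℕ => d (n, k)) (b := atTop) ?_
      (Eventually.of_forall fun k => ⟨(n, k), rfl⟩)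
    rw [tendsto_cp]
    intro x
    have hev : ∀ᶠ k : ℕ in atTop, (d (n, k)).1 x = (cl f (e n)).1 x := by
      by_cases hex : ∃ k0, x ∈ U (Nat.pair n k0)
      · obtain ⟨k0, hk0⟩ := hex
        filter_upwards [eventually_gt_atTop k0] with k hk
        have hne : Nat.pair n k0 ≠ Nat.pair n k := by
          intro hp
          rw [Nat.pair_eq_pair] at hp
          omega
        have hxk : x ∉ U (Nat.pair n k) := fun hx => Set.disjoint_left.1 (hUd hne) hk0 hx
        change (cl f (e n)).1 x + 3 * g (Nat.pair n k) x = _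
        rw [hg0 _ _ hxk]
        ring
      · push Not at hex
        refine Eventually.of_forall fun k => ?_
        change (cl f (e n)).1 x + 3 * g (Nat.pair n k) x = _
        rw [hg0 _ _ (hex k)]
        ring
    exact (tendsto_congr' hev).2 tendsto_const_nhds
  have hclE : ∀ a ∈ closure E, cl f a ∈ closure (range d) := by
    intro a ha
    have h1 : cl f a ∈ closure (cl f '' E) :=
      image_closure_subset_closure_image (cl_cont f) ⟨a, ha, rfl⟩
    refine closure_minimal ?_ isClosed_closure h1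
    rintro _ ⟨b, hb, rfl⟩
    rw [he] at hb
    obtain ⟨n, rfl⟩ := hb
    exact hlim n
  exact ⟨range d, countable_range d, hD, hclE⟩

/-- Countable pseudocharacter of the subspace `S` of `C_p(X)`: every point of `S` is the
intersection with `S` of countably many open sets of `C_p(X)`. -/
def CountablePsi (S : Set (Cp X)) : Prop :=
  ∀ f ∈ S, ∃ 𝒰 : Set (Set (Cp X)), 𝒰.Countable ∧ (∀ U ∈ 𝒰, IsOpen U ∧ f ∈ U) ∧ ⋂₀ 𝒰 ∩ S = {f}

lemma cl_eq (f h : Cp X) (hh : cl f h = f) : h = f := by
  apply Subtype.ext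
  funext x
  have h1 : (cl f h).1 x = f.1 x := by rw [hh]
  simp only [cl] at h1
  have h2 : max (-1) (min 1 (h.1 x - f.1 x)) = 0 := by linarith
  rcases max_cases (-1) (min 1 (h.1 x - f.1 x)) with hc | hc
  · exfalso
    linarith [hc.1]
  · rcases min_cases 1 (h.1 x - f.1 x) with hd | hd
    · exfalso
      linarith [hc.1, hd.1]
    · linarith [hc.1, hd.1]

lemma psi_of [T2Space X] [CompletelyRegularSpace X]
    (h : ∀ D : Set (Cp X), D.Countable → DiscreteTopology D → CountablePsi (closure D))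
    (E : Set (Cp X)) (hE : E.Countable) : CountablePsi (closure E) := by
  intro f hf
  rcases finite_or_infinite X with hX | hX
  · -- C_p(X) is metrizable
    have hX2 : Countable X := Finite.to_countable
    have hfc : FirstCountableTopology (Cp X) :=
      Topology.IsInducing.firstCountableTopology (f := (Subtype.val : Cp X → X → ℝ))
        Topology.IsInducing.subtypeVal
    obtain ⟨b, hb⟩ := (𝓝 f).exists_antitone_basis
    have hb' : ∀ n, b n ∈ 𝓝 f := fun n => hb.1.mem_of_mem trivial
    choose V hVb hVo hfV using fun n => mem_nhds_iff.1 (hb' n)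
    refine ⟨range V, countable_range V, ?_, ?_⟩
    · rintro _ ⟨n, rfl⟩
      exact ⟨hVo n, hfV n⟩
    · apply Set.Subset.antisymm
      · rintro k ⟨hk, _⟩
        by_contra hne
        have hmem : {k}ᶜ ∈ 𝓝 f := isOpen_compl_singleton.mem_nhds (fun h => hne h.symm)
        obtain ⟨n, _, hn⟩ := hb.1.mem_iff.1 hmem
        exact hn (hVb n (hk _ ⟨n, rfl⟩)) rfl
      · rintro _ rfl
        refine ⟨?_, hf⟩
        rintro _ ⟨n, rfl⟩
        exact hfV n
  · have hEne : E.Nonempty := closure_nonempty_iff.1 ⟨f, hf⟩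
    obtain ⟨D, hDc, hDd, hD⟩ := exists_discrete E hE hEne f
    have hfD : f ∈ closure D := by
      have := hD f hf
      rwa [cl_self] at this
    obtain ⟨𝒰, hc, hU, hI⟩ := h D hDc hDd f hfD
    refine ⟨(fun U => cl f ⁻¹' U) '' 𝒰, hc.image _, ?_, ?_⟩
    · rintro _ ⟨U, hUm, rfl⟩
      refine ⟨(hU U hUm).1.preimage (cl_cont f), ?_⟩
      change cl f f ∈ U
      rw [cl_self]
      exact (hU U hUm).2
    · apply Set.Subset.antisymm
      · rintro k ⟨hk, hkE⟩
        have h1 : cl f k ∈ ⋂₀ 𝒰 ∩ closure D :=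
          ⟨fun U hUm => hk _ ⟨U, hUm, rfl⟩, hD k hkE⟩
        rw [hI] at h1
        exact cl_eq f k h1
      · rintro _ rfl
        refine ⟨?_, hf⟩
        rintro _ ⟨U, hUm, rfl⟩
        change cl _ _ ∈ U
        rw [cl_self]
        exact (hU U hUm).2

lemma finite_nbhd (U : Set (Cp X)) (hU : IsOpen U) (f : Cp X) (hf : f ∈ U) :
    ∃ F : Finset X, ∀ k : Cp X, (∀ x ∈ F, k.1 x = f.1 x) → k ∈ U := by
  obtain ⟨V, hV, rfl⟩ := isOpen_induced_iff.1 hU
  obtain ⟨I, u, hu, hsub⟩ := isOpen_pi_iff.1 hV f.1 hf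
  refine ⟨I, fun k hk => hsub ?_⟩
  intro x hx
  rw [hk x hx]
  exact (hu x hx).2

/-- If closures of countable discrete subsets of `C_p(X)` have countable pseudocharacter, then so
do closures of all countable subsets, and `X` is separable whenever `C_p(X)` is separable. -/
theorem result (X : Type*) [TopologicalSpace X] [T2Space X] [CompletelyRegularSpace X]
    (h : ∀ D : Set (Cp X), D.Countable → DiscreteTopology D → CountablePsi (closure D)) :
    (∀ E : Set (Cp X), E.Countable → CountablePsi (closure E)) ∧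
    (TopologicalSpace.SeparableSpace (Cp X) → TopologicalSpace.SeparableSpace X) := by
  refine ⟨fun E hE => psi_of h E hE, fun hsep => ?_⟩
  obtain ⟨E, hE, hEd⟩ := TopologicalSpace.exists_countable_dense (Cp X)
  let z : Cp X := ⟨fun _ => 0, continuous_const⟩
  obtain ⟨𝒰, hc, hU, hI⟩ := psi_of h E hE z (by rw [hEd.closure_eq]; trivial)
  rw [hEd.closure_eq, inter_univ] at hI
  choose F hF using fun U : 𝒰 => finite_nbhd U.1 (hU U.1 U.2).1 z (hU U.1 U.2).2
  have hcF : (⋃ U : 𝒰, (F U : Set X)).Countable := by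
    have := hc.to_subtype
    exact countable_iUnion fun U => (F U).countable_toSet
  refine ⟨⟨⋃ U : 𝒰, (F U : Set X), hcF, ?_⟩⟩
  intro x
  by_contra hx
  obtain ⟨φ, hφ, h0, h1⟩ := CompletelyRegularSpace.completely_regular x
    (closure (⋃ U : 𝒰, (F U : Set X))) isClosed_closure hx
  let k : Cp X := ⟨fun y => 1 - (φ y : ℝ), continuous_const.sub (continuous_subtype_val.comp hφ)⟩
  have hk : k ∈ ⋂₀ 𝒰 := by
    intro U hUm
    refine hF ⟨U, hUm⟩ k fun y hy => ?_
    have hy' : y ∈ closure (⋃ U : 𝒰, (F U : Set X)) :=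
      subset_closure (mem_iUnion.2 ⟨⟨U, hUm⟩, hy⟩)
    have := h1 hy'
    change 1 - (φ y : ℝ) = 0
    simp [this]
  rw [hI] at hk
  have hkz : k = z := hk
  have h2 : k.1 x = z.1 x := by rw [hkz]
  change 1 - (φ x : ℝ) = 0 at h2
  rw [h0] at h2
  simp at h2

end Pool.Agent.Results.MP_577fd0_gt.SeparablePart
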